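import Pool.Agent.Helper6.CS.Goals2

set_option autoImplicit false

namespace Pool.Agent.Helper35.CS

open Pool.Agent.Helper6.CS

set_option synthInstance.maxSize 1000000000

/-- The first position of a letter, from its properties. -/
theorem fo_eq {M : Type} [World M] {a : M} {W : M → M} [IFn M W] {i q : M} (h1 : W q = a + i)
    (h2 : ∀ p, p < q → W p ≠ a + i) : fo a W i = q := by
  have h3 : fo a W i ≤ q := lst_le (P := fun p => W p = a + i) h1
  have h4 : W (fo a W i) = a + i := lst_spec (P := fun p => W p = a + i) ⟨q, h1⟩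
  rcases h3.lt_or_eq with h5 | h5
  · exact absurd h4 (h2 _ h5)
  · exact h5

theorem get_app_lt {M : Type} [World M] (s t : Wd M) {i : M} (h : i < s.len) :
    (s ++ t).get i = s.get i := Wd.get_append_left s t h

theorem t_EB : G_EB := by
  intro M _ a j
  refine ⟨fun w s v hw hv => ?_, fun w r v hw hv => ?_, fun w s hw hs => ?_⟩
  · obtain ⟨p, hp, hp2⟩ := hw.2.1 v.len hv
    have q1 : fo a w.get v.len ≤ p := lst_le (P := fun p => w.get p = a + v.len) hp2
    have q2 : w.get (fo a w.get v.len) = a + v.len :=
      lst_spec (P := fun p => w.get p = a + v.len) ⟨p, hp2⟩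
    have q3 : fo a w.get v.len < w.len := lt_of_le_of_lt q1 hp
    have q4 : fo a (w ++ s).get v.len = fo a w.get v.len := by
      refine fo_eq ?_ fun p' hp' => ?_
      · rw [get_app_lt _ _ q3, q2]
      · rw [get_app_lt _ _ (lt_trans hp' q3)]
        intro hc
        exact absurd (lst_le (P := fun p => w.get p = a + v.len) hc) (not_le.2 hp')
    unfold inst
    rw [q4]
    refine Wd.ext' (by rw [Wd.len_of, Wd.len_of]) fun i hi => ?_
    rw [Wd.len_of] at hi
    rw [Wd.get_of_lt _ _ hi, Wd.get_of_lt _ _ hi, get_app_lt _ _ (lt_trans hi q3)]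
  · have e1 : (w ++ Wd.sg (a + j) ++ r).get w.len = a + j := by
      rw [Wd.append_assoc]
      have : w.len = w.len + 0 := by rw [add_zero]
      conv_lhs => rw [this]
      rw [Wd.get_append_right, get_app_lt _ _ (by rw [Wd.len_sg]; exact zero_lt_one),
        Wd.get_sg_zero]
    have e2 : ∀ p, p < w.len → (w ++ Wd.sg (a + j) ++ r).get p = w.get p := by
      intro p hp
      rw [Wd.append_assoc, get_app_lt _ _ hp]
    have e3 : fo a (w ++ Wd.sg (a + j) ++ r).get v.len = w.len := by
      rw [hv]
      refine fo_eq e1 fun p hp => ?_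
      rw [e2 p hp]
      exact (hw p hp).ne
    unfold inst isub
    rw [e3]
    refine Wd.ext' (by rw [Wd.len_of, Wd.len_of]) fun i hi => ?_
    rw [Wd.len_of] at hi
    rw [Wd.get_of_lt _ _ hi, Wd.get_of_lt _ _ hi, e2 i hi]
  · obtain ⟨w1, w2, w3⟩ := hw
    have hj : a + j ≤ a + (j + 1) := by
      rw [← add_assoc]
      exact le_add_of_nonneg_right (World.zero_le' _)
    have hlt : a + j < a + (j + 1) := by
      rw [← add_assoc]
      exact (World.lt_succ _ _).2 le_rfl
    refine ⟨?_, ?_, ?_⟩
    · rw [Over.append_iff, Over.append_iff, Over.sg_iff]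
      exact ⟨⟨w1.mono hj, hs.mono hj⟩, hlt⟩
    · intro i hi
      rw [World.lt_succ] at hi
      rcases hi.lt_or_eq with h | rfl
      · obtain ⟨p, hp, hp2⟩ := w2 i h
        refine ⟨p, ?_, ?_⟩
        · simp only [Wd.len_append, add_assoc]
          exact lt_of_lt_of_le hp (le_add_of_nonneg_right (World.zero_le' _))
        · rw [Wd.append_assoc, get_app_lt _ _ hp, hp2]
      · refine ⟨(w ++ s).len + 0, ?_, ?_⟩
        · rw [Wd.len_append (w ++ s), Wd.len_sg]
          exact add_lt_add_right zero_lt_one _
        · rw [Wd.get_append_right, Wd.get_sg_zero]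
    · intro i p hp hp2
      rw [Wd.len_append, Wd.len_sg, World.lt_succ] at hp
      -- an occurrence of the preceding letter inside the first word
      have key : ∀ i, i < j → w.len ≤ p → ∃ q, q < p ∧ (w ++ s ++ Wd.sg (a + j)).get q = a + i := by
        intro i hi hpw
        obtain ⟨q, hq, hq2⟩ := w2 i hi
        refine ⟨q, lt_of_lt_of_le hq hpw, ?_⟩
        rw [Wd.append_assoc, get_app_lt _ _ hq, hq2]
      rcases lt_or_ge p w.len with h | h
      · rw [Wd.append_assoc, get_app_lt _ _ h] at hp2
        obtain ⟨q, hq, hq2⟩ := w3 i p h hp2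
        refine ⟨q, hq, ?_⟩
        rw [Wd.append_assoc, get_app_lt _ _ (lt_trans hq h), hq2]
      · refine key i ?_ h
        rcases hp.lt_or_eq with h2 | h2
        · rw [get_app_lt _ _ h2] at hp2
          have h3 : Over (a + j) (w ++ s) := Over.append_iff.2 ⟨w1, hs⟩
          have h4 := h3 p h2
          rw [hp2] at h4
          have h5 := lt_of_add_lt_add_left h4
          exact lt_trans ((World.lt_succ _ _).2 le_rfl) h5
        · have h3 : p = (w ++ s).len + 0 := by rw [h2, add_zero]
          rw [h3, Wd.get_append_right, Wd.get_sg_zero] at hp2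
          have h4 : j = i + 1 := add_left_cancel hp2
          rw [h4]
          exact (World.lt_succ _ _).2 le_rfl

end Pool.Agent.Helper35.CS
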