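import Pool.Agent.Helper6.CS.Goals2

set_option autoImplicit false

namespace Pool.Agent.Helper35.CS

open Pool.Agent.Helper6.CS

theorem t_FC : G_FC := by
  intro hA hB hC hTZ hTS hFA hFB hVWI n A hM
  have key : ∀ (n : ℕ) (M : Type) (w : World M) (a : M), @OVWw M w (n : M) a := by
    intro n
    induction n with
    | zero =>
      intro M w a
      rw [Nat.cast_zero]
      exact hTZ M a
    | succ n ih =>
      intro M w a
      rw [Nat.cast_succ]
      exact hTS M _ a (ih M w a)
  obtain ⟨w, hw⟩ := hC hA hB A hM
  have h1 := hFB hFA hVWI n A.M w (fun a => key n A.M w a)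
  rw [hw] at h1
  exact h1

end Pool.Agent.Helper35.CS
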