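import Pool.Agent.Helper6.CS.Goals2

set_option autoImplicit false

namespace Pool.Agent.Helper35.CS

open Pool.Agent.Helper6.CS

set_option synthInstance.maxSize 1000000000

theorem t_PREH : G_ED → G_EE → G_PREH := by
  intro hED hEE M _ a k ℓ f hf hℓ
  obtain ⟨F, s, hF, hs, F0, FS, hOv, hD⟩ := hED M a k ℓ f hf hℓ
  obtain ⟨W, hW, hOW, hi, hj⟩ := hEE M a F s hF hs F0 FS hOv
  refine ⟨W, hW, hOW, fun u z hu hz => ?_⟩
  by_cases hz0 : z.len = 0
  · rw [Wd.eq_nil_of_len hz0, Wd.append_nil]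
  · have hv : u.len + 1 + z.len = (u ++ Wd.sg (a + k) ++ z).len := by simp
    have h1 := hD _ u z hu hz hz0 hv
    have h2 : (u ++ Wd.sg (a + k)).len < (u ++ Wd.sg (a + k) ++ z).len := by
      rw [← hv]
      simp only [Wd.len_append, Wd.len_sg]
      exact lt_add_of_pos_right _ (lt_of_le_of_ne (World.zero_le' _) (Ne.symm hz0))
    rw [hi, h1, hj _ _ h2]

end Pool.Agent.Helper35.CS
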