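import Pool.Agent.Helper6.CS.Goals2

set_option autoImplicit false

namespace Pool.Agent.Helper35.CS

open Pool.Agent.Helper6.CS

set_option synthInstance.maxSize 1000000000

theorem t_TS : G_PREH → G_COMP → G_PREF → G_VWI → G_DEC → G_TS := by
  intro hPREH hCOMP hPREF hVWI hDEC M _ k a hk ℓ f hf hℓ
  obtain ⟨W, hW, hOW, hP⟩ := hPREH M a k ℓ f hf hℓ
  obtain ⟨U, hU, hOU, c, hc⟩ := hk ℓ (fun u => f (inst a W (u ++ Wd.sg (a + k)))) inferInstance
    (fun z => hℓ _)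
  obtain ⟨hOc, hcmp⟩ := hCOMP M a W U hW hU hOW hOU
  refine ⟨cmp a W U, inferInstance, hOc, c, fun v hv => ?_⟩
  have hv1 := hv.1
  obtain ⟨u, z, hu, hz, rfl⟩ := (hDEC M a k).1 v hv
  obtain ⟨z', hz', hz2⟩ := hPREF M a U hU hOU u (a + k) z
  have hO : Over (a + k + 1) z' := by
    refine hz2 (a + k + 1) ?_ (by rwa [add_assoc])
    rw [add_assoc]
    exact le_add_of_nonneg_right (World.zero_le' _)
  rw [hcmp, hz', hP _ _ (hVWI M a k U hU hOU u hu) hO]
  exact hc u hu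

end Pool.Agent.Helper35.CS
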